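import Pool.Agent.W558.WT.Stms
import Pool.Agent.W440.WA.Tbl

set_option autoImplicit false
set_option linter.unusedVariables false
set_option linter.unusedSectionVars false

universe u

/-! WT-TBL: the blowup of the intersection of two components of the boundary, relative version. -/

namespace Pool.Agent.W368.WT.Tbl

open Pool.Agent.W558
open Pool.Agent.W440.WA.Tbl (snc_aux lift0 lift1)

theorem main : WT_tbl.{u} := by
  intro p _ k L N _ _ _ _ _ _ _ _ T0 I0 T I G _ _ _ _ B n0 h0 M F Q y c μ g Γ hPX hLq hFn i j hij hci hcj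
  obtain ⟨π, Θ, hPS⟩ := hPX
  obtain ⟨M', hA, hx, hH⟩ := exists_blowup M hij
  have hA' : ∀ q, M'.A q = bA M i j q := fun q => congrFun hA q
  have hx' : ∀ q, M'.x q = bX M i j q := fun q => congrFun hx q
  have hle : ∀ q : T × Bool, M.A q.1 ≤ M'.A q := fun q => by
    rw [hA']; exact le_bA M i j q
  have hxl : ∀ (q : T × Bool) (l : I), M.x q.1 l = M'.x q (some l) *
      (if l = i ∨ l = j then M'.x q none else 1) := fun q l => by
    rw [hx']; exact x_eq_bX M hij q l
  have hcm : ∀ (q : T × Bool) (l : I), (if l = i ∨ l = j then M'.x q none else 1) ∈ M'.A q := by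
    intro q l
    split_ifs
    · exact M'.xA _ _
    · exact (M'.A q).one_mem
  have hce : (fun o : Option I => (o.elim (c i + c j) c : ℤ)) = bΓ i j c := by
    funext o
    cases o <;> rfl
  obtain ⟨hs1, hs2, hs3, hs4⟩ := sep_blowup M hij M' hA hx
  let Θ' : Option I → I0 → ℤ := fun o i0 => bΓ i j (fun l => Θ l i0) o
  have hov : Ovr B M' (fun q => π q.1) Θ' := by
    refine ⟨fun q a ha => hle q (hPS.ov.le q.1 a ha), ?_, ?_⟩
    · intro q i0
      have h1 := hPS.ov.x q.1 i0
      rw [prod_bX M hij q] at h1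
      rw [hx']
      exact h1
    · rintro (_ | l) i0
      · exact add_nonneg (hPS.ov.Θ0 i i0) (hPS.ov.Θ0 j i0)
      · exact hPS.ov.Θ0 l i0
  have hinv : ∀ (q : T × Bool) (l : I), (M.x q.1 l)⁻¹ ∈ M.A q.1 →
      (M'.x q (some l))⁻¹ ∈ M'.A q ∧ ((l = i ∨ l = j) → (M'.x q none)⁻¹ ∈ M'.A q) := by
    intro q l h1
    have h2 := hxl q l
    have h3 := M'.x0 q (some l)
    have h4 := M'.x0 q none
    have h5 := hle q h1
    have h6 := M.x0 q.1 l
    constructor
    · have e : (M'.x q (some l))⁻¹ = (M.x q.1 l)⁻¹ * (if l = i ∨ l = j then M'.x q none else 1) := by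
        have h7 : (if l = i ∨ l = j then M'.x q none else 1) ≠ 0 := by
          split_ifs
          · exact h4
          · exact one_ne_zero
        rw [h2, mul_inv, mul_assoc, inv_mul_cancel₀ h7, mul_one]
      rw [e]
      exact (M'.A q).mul_mem h5 (hcm q l)
    · intro hl
      rw [if_pos hl] at h2
      have e : (M'.x q none)⁻¹ = (M.x q.1 l)⁻¹ * M'.x q (some l) := by
        rw [h2, mul_inv]
        field_simp
      rw [e]
      exact (M'.A q).mul_mem h5 (M'.xA _ _)
  refine ⟨M', fun q => y q.1, bΓ i j μ, fun a => bΓ i j (Γ a), ⟨fun q => π q.1, Θ', ?_⟩,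
    ?_, (ext_blowup M hij g Γ M' hA hx hH).fn hFn, hs1, hs2, hs3, hs4, ?_, ?_⟩
  · refine ⟨hov, hPS.hA, ?_, fun q => hle q (hPS.yA q.1), fun q => hPS.y0 q.1, ?_, ?_,
      fun q => hPS.yQ q.1, ?_, ?_, ?_, ?_, ?_, ?_, ?_, ?_, ?_⟩
    · -- ce
      rintro (_ | l)
      · change c i + c j = ∑ i0, (Θ i i0 + Θ j i0) * n0 i0 - p * (μ i + μ j)
        have h1 := hPS.ce i
        have h2 := hPS.ce j
        simp only [add_mul, Finset.sum_add_distrib]
        linear_combination h1 + h2
      · exact hPS.ce l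
    · intro q
      rw [hA']
      refine adj_le (hPS.AQ q.1) ?_
      unfold vv
      rw [div_eq_mul_inv]
      exact Q.mul_mem (hPS.AQ q.1 (M.xA _ _)) (hPS.xQ _ _)
    · intro q o
      rw [hx']
      rcases o with _ | l
      · exact hPS.xQ _ _
      · simp only [bX, bx]
        split_ifs
        · rw [inv_div, div_eq_mul_inv]
          exact Q.mul_mem (hPS.AQ q.1 (M.xA _ _)) (hPS.xQ _ _)
        · rw [inv_one]
          exact Q.one_mem
        · exact hPS.xQ _ _
    · -- m0
      rintro (_ | l)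
      · change μ i + μ j ≤ 0
        have h1 := hPS.m0 i
        have h2 := hPS.m0 j
        omega
      · exact hPS.m0 l
    · -- cp
      rintro (_ | l)
      · change c i + c j ≤ (p : ℤ)
        have h1 := hPS.cp i
        omega
      · exact hPS.cp l
    · -- cm
      rintro (_ | l) h0
      · change μ i + μ j < 0
        have h1 := hPS.cm i hci
        have h2 := hPS.m0 j
        omega
      · exact hPS.cm l h0
    · -- eq
      intro q
      have h1 := hPS.eq q.1
      rw [prod_bX M hij q, prod_bX M hij q, prod_bX M hij q] at h1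
      have h2 : bΓ i j (fun l => (p : ℤ) * μ l) = fun o => (p : ℤ) * bΓ i j μ o := by
        funext o
        cases o with
        | none =>
          change (p : ℤ) * μ i + (p : ℤ) * μ j = (p : ℤ) * (μ i + μ j)
          ring
        | some l => rfl
      have h3 : bΓ i j (fun l => -((p : ℤ) - 1) * μ l) =
          fun o => -((p : ℤ) - 1) * bΓ i j μ o := by
        funext o
        cases o with
        | none =>
          change -((p : ℤ) - 1) * μ i + -((p : ℤ) - 1) * μ j = -((p : ℤ) - 1) * (μ i + μ j)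
          ring
        | some l => rfl
      rw [h2, h3, ← hce] at h1
      rw [hx']
      exact h1
    · intro q
      rw [hA', hx']
      exact snc_aux M hij q (y q.1) (hPS.yA q.1) (hPS.y0 q.1) (hPS.snc q.1)
    · -- ri
      rintro q (_ | l) ho hμ
      · have h1 : (M.x q.1 j)⁻¹ ∉ M.A q.1 := fun h => ho ((hinv q j h).2 (Or.inr rfl))
        rcases hPS.ri q.1 j h1 (Or.inr hcj) with ⟨i0, h2, h3⟩ | h2
        · left
          refine ⟨i0, h2, ?_⟩
          change 0 < Θ i i0 + Θ j i0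
          have := hPS.ov.Θ0 i i0
          omega
        · exfalso
          omega
      · have h1 : (M.x q.1 l)⁻¹ ∉ M.A q.1 := fun h => ho (hinv q l h).1
        rcases hPS.ri q.1 l h1 hμ with h2 | h2
        · exact Or.inl h2
        · exact Or.inr ⟨h2.1, hle q h2.2⟩
    · -- lf
      intro q κ _ _ φ v0
      let φ0 : M.A q.1 →ₐ[k] κ := φ.comp (Subalgebra.inclusion (hle q))
      have hφ0 : ∀ z (hz : z ∈ M.A q.1), φ ⟨z, hle q hz⟩ = φ0 ⟨z, hz⟩ := fun z hz => rfl
      obtain ⟨v, hv1, hv2, hv3⟩ := hPS.lf q.1 κ φ0 v0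
      obtain ⟨v', h1, h2, h3⟩ := lift1 M hij q (y q.1) (hPS.yA q.1) κ (M'.A q) (M'.x q) (hA' q)
        (hx' q) (hle q) φ φ0 hφ0 v
      refine ⟨v', ?_, ?_, ?_⟩
      · intro a ha
        rw [h1 _ (hPS.ov.le q.1 a ha)]
        exact hv1 a ha
      · intro i0
        exact (h3 fun l => Θ l i0).trans (hv2 i0)
      · rw [h2, h3 μ]
        exact hv3
    · -- vt
      intro q κ _ _ φ
      let φ0 : M.A q.1 →ₐ[k] κ := φ.comp (Subalgebra.inclusion (hle q))
      have hφ0 : ∀ z (hz : z ∈ M.A q.1), φ ⟨z, hle q hz⟩ = φ0 ⟨z, hz⟩ := fun z hz => rfl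
      rcases hPS.vt q.1 κ φ0 with h1 | ⟨D, hD1, hD2, hD3⟩
      · exact Or.inl (hle q h1)
      · right
        let v0 : LT φ0 (M.x q.1) := ⟨D, fun _ => 0, fun l hl => by rw [mul_zero]; exact hD2 l⟩
        obtain ⟨w, hw1, hw2, -⟩ := lift0 M hij q κ (M'.A q) (M'.x q) (hA' q) (hx' q) (hle q) φ φ0
          hφ0 v0
        refine ⟨w.D, ?_, ?_, ?_⟩
        · rw [hw1 _ (hPS.yA q.1)]
          exact hD1
        · intro o
          rw [w.hx o (M'.xA _ _), hw2 (fun _ => rfl) o, mul_zero]
        · intro a ha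
          rw [hw1 _ (hPS.ov.le q.1 a ha)]
          exact hD3 a ha
    · -- vl
      intro q κ _ _ φ
      let φ0 : M.A q.1 →ₐ[k] κ := φ.comp (Subalgebra.inclusion (hle q))
      have hφ0 : ∀ z (hz : z ∈ M.A q.1), φ ⟨z, hle q hz⟩ = φ0 ⟨z, hz⟩ := fun z hz => rfl
      obtain ⟨v, hv1, hv2, hv3⟩ := hPS.vl q.1 κ φ0
      obtain ⟨v', h1, h2, h3⟩ := lift1 M hij q (y q.1) (hPS.yA q.1) κ (M'.A q) (M'.x q) (hA' q)
        (hx' q) (hle q) φ φ0 hφ0 v
      refine ⟨v', ?_, ?_, ?_⟩
      · intro a ha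
        rw [h1 _ (hPS.ov.le q.1 a ha)]
        exact hv1 a ha
      · intro i0
        exact (h3 fun l => Θ l i0).trans (hv2 i0)
      · rw [h2, h3 μ]
        exact hv3
  · intro q z hz
    obtain ⟨α, hα, β, hβ, h1⟩ := hLq q.1 z hz
    exact ⟨α, hle q hα, β, hle q hβ, h1⟩
  · intro l hl q
    obtain ⟨α, hα, β, hβ, h1⟩ := hl q.1
    refine ⟨α * (if l = i ∨ l = j then M'.x q none else 1),
      (M'.A q).mul_mem (hle q hα) (hcm q l), β, hle q hβ, ?_⟩
    rw [hxl q l] at h1
    linear_combination h1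
  · intro hl q
    obtain ⟨α, hα, β, hβ, h1⟩ := hl q.1
    refine ⟨α * M'.x q (some i), (M'.A q).mul_mem (hle q hα) (M'.xA _ _), β, hle q hβ, ?_⟩
    have h2 := hxl q i
    rw [if_pos (Or.inl rfl)] at h2
    rw [← h1, h2]
    ring

end Pool.Agent.W368.WT.Tbl
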