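import Pool.Agent.W312.WT.Stm

/-!
Part SNecA: completion times are at least `p`.
-/

set_option autoImplicit false

namespace Pool.Agent.W368.WT

open Pool.Agent.W312.WT

theorem proof_SNecA : Pool.Agent.W312.WT.SNecA := by
  intro hL hC p n S u hp
  obtain ⟨⟨q₀, hq₀, hq₀'⟩, hle⟩ := hC p n S u hp
  have hpos : 0 ≤ S.compl u := by
    have h := S.pos u q₀ hq₀
    rw [← hq₀']
    linarith [h.1, h.2]
  have h := hL (Bool × ℝ × ℝ) (S.pieces u) (fun q => q.2.1) (fun q => q.2.2) 0 (S.compl u) hpos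
    (fun q hq => ⟨(S.pos u q hq).1, (S.pos u q hq).2.le, hle q hq⟩)
    (fun q hq r hr hqr => S.disj u u q hq r hr (fun h => hqr (Prod.ext_iff.1 h).2) (Or.inl rfl))
  have h2 := S.total u
  rw [h2, sub_zero] at h
  exact h

end Pool.Agent.W368.WT
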